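import Mathlib

namespace Pool.Agent.Results.MP_900fba_co.NotRegular

theorem dec (n : ℤ) (hn : n ≠ 0) : ∃ p : ℕ × ℤ, n = 3 ^ p.1 * p.2 ∧ ¬ (3 : ℤ) ∣ p.2 := by
  obtain ⟨a, u, h1, h2⟩ := WfDvdMonoid.max_power_factor hn Int.prime_three.irreducible
  exact ⟨(a, u), h2, h1⟩

theorem uniq {a b : ℕ} {u v : ℤ} (h : 3 ^ a * u = 3 ^ b * v) (hu : ¬ (3 : ℤ) ∣ u)
    (hv : ¬ (3 : ℤ) ∣ v) : a = b ∧ u = v := by
  have key : ∀ {a b : ℕ} {u v : ℤ}, 3 ^ a * u = 3 ^ b * v → ¬ (3 : ℤ) ∣ u → ¬ a < b := by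
    intro a b u v h hu hab
    obtain ⟨k, rfl⟩ := Nat.exists_eq_add_of_lt hab
    refine hu ⟨3 ^ k * v, mul_left_cancel₀ (by positivity : (3 : ℤ) ^ a ≠ 0) ?_⟩
    rw [h]; ring
  have : a = b := by
    have := key h hu
    have := key h.symm hv
    omega
  subst this
  exact ⟨rfl, mul_left_cancel₀ (by positivity) h⟩

theorem one : ∃ c : ℤ → Fin 12 × Fin 9, ∀ x y w z : ℤ, x ≠ 0 → y ≠ 0 → w ≠ 0 → z ≠ 0 →
    5 ^ 4 * x + 3 ^ 6 * y = w * z ^ 12 → ¬ (c y = c x ∧ c w = c x) := by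
  choose! f hf hf' using dec
  refine ⟨fun n => (⟨(f n).1 % 12, Nat.mod_lt _ (by norm_num)⟩,
    ⟨((f n).2 % 9).toNat, by omega⟩), fun x y w z hx hy hw hz h ⟨h1, h2⟩ => ?_⟩
  simp only [Prod.mk.injEq, Fin.mk.injEq] at h1 h2
  have ex := hf x hx
  have ey := hf y hy
  have ew := hf w hw
  have ez := hf z hz
  have nx := hf' x hx
  have ny := hf' y hy
  have nw := hf' w hw
  have nz := hf' z hz
  generalize f x = p at *
  generalize f y = q at *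
  generalize f w = s at *
  generalize f z = t at *
  obtain ⟨a, u⟩ := p
  obtain ⟨b, v⟩ := q
  obtain ⟨c, r⟩ := s
  obtain ⟨d, t⟩ := t
  simp only at *
  have hR : w * z ^ 12 = 3 ^ (c + 12 * d) * (r * t ^ 12) := by rw [ew, ez]; ring
  have nR : ¬ (3 : ℤ) ∣ r * t ^ 12 := fun hh => by
    rcases Int.prime_three.dvd_or_dvd hh with h | h
    · exact nw h
    · exact nz (Int.prime_three.dvd_of_dvd_pow h)
  rcases lt_or_gt_of_ne (show a ≠ b + 6 by omega) with hab | hab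
  · obtain ⟨k, hk⟩ : ∃ k, b + 6 = a + (k + 2) := ⟨b + 6 - a - 2, by omega⟩
    have e : 3 ^ a * (625 * u + 9 * (3 ^ k * v)) = 3 ^ (c + 12 * d) * (r * t ^ 12) := by
      rw [← hR, ← h, ex, ey, ← mul_assoc (3 ^ 6), ← pow_add, add_comm 6 b, hk]; ring
    have e2 := (uniq e (by omega) nR).2
    have t9 : t ^ 12 % 9 = 1 := by
      have : t % 9 = 1 ∨ t % 9 = 2 ∨ t % 9 = 4 ∨ t % 9 = 5 ∨ t % 9 = 7 ∨ t % 9 = 8 := by omega
      have h9 := (Int.mod_modEq t 9).symm.pow 12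
      rcases this with h | h | h | h | h | h <;> rw [h] at h9 <;> exact h9
    have e3 : (r * t ^ 12) % 9 = r % 9 := by rw [Int.mul_emod, t9]; simp
    omega
  · obtain ⟨k, hk⟩ : ∃ k, a = b + 6 + (k + 1) := ⟨a - (b + 6) - 1, by omega⟩
    have e : 3 ^ (b + 6) * (3 * (625 * 3 ^ k * u) + v) = 3 ^ (c + 12 * d) * (r * t ^ 12) := by
      rw [← hR, ← h, ex, ey, hk]; ring
    have e2 := (uniq e (by omega) nR).1
    omega

theorem result : ∃ (r : ℕ) (c : ℤ → Fin r),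
    (∀ x y w z : ℤ, x ≠ 0 → y ≠ 0 → w ≠ 0 → z ≠ 0 →
      5 ^ 4 * x + 3 ^ 6 * y = w * z ^ 12 → ¬ (c y = c x ∧ c w = c x ∧ c z = c x)) ∧
    ∀ x₁ y₁ w₁ z₁ x₂ y₂ w₂ z₂ : ℤ, (∀ v ∈ [x₁, y₁, w₁, z₁, x₂, y₂, w₂, z₂], v ≠ 0) →
      5 ^ 4 * x₁ + 3 ^ 6 * y₁ = w₁ * z₁ ^ 12 →
      (5 ^ 4 - 3 ^ 6) * x₂ + 3 ^ 6 * y₂ = w₂ * z₂ ^ 12 →
      ¬ ∃ j, ∀ v ∈ [x₁, y₁, w₁, z₁, x₂, y₂, w₂, z₂], c v = j := by
  obtain ⟨c, hc⟩ := one
  refine ⟨12 * 9, fun n => finProdFinEquiv (c n), fun x y w z hx hy hw hz h h' =>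
    hc x y w z hx hy hw hz h ⟨finProdFinEquiv.injective h'.1, finProdFinEquiv.injective h'.2.1⟩,
    fun x y w z _ _ _ _ h0 h _ ⟨j, hj⟩ => hc x y w z (h0 _ (by simp)) (h0 _ (by simp))
      (h0 _ (by simp)) (h0 _ (by simp)) h ⟨finProdFinEquiv.injective ?_,
        finProdFinEquiv.injective ?_⟩⟩
  · exact (hj y (by simp)).trans (hj x (by simp)).symm
  · exact (hj w (by simp)).trans (hj x (by simp)).symm

end Pool.Agent.Results.MP_900fba_co.NotRegular
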